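import Pool.Agent.H98.SD.TargetsM
import Pool.Agent.H98.SD.Lib

/-!
# MP_e37c09_lc: row NIM
-/

open Ordinal Cardinal Order Set
open scoped ZFSet

universe u

namespace Pool.Agent.H97.SD.NIM

open _root_.HD _root_.HD.SD

theorem clb_gt {κ : Ordinal.{u}} (hκ : IsSuccLimit κ) {a : Ordinal.{u}} (ha : a < κ) :
    Clb κ {b | a < b} := by
  refine ⟨fun x hx => ⟨succ (max x a), hκ.succ_lt (max_lt hx ha),
    lt_succ_of_le (le_max_left x a), lt_succ_of_le (le_max_right x a)⟩, fun x hx h0 h => ?_⟩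
  obtain ⟨z, h1, -, h3⟩ := h 0 h0
  exact lt_trans h3 h1

/-- the union of two null sets -/
theorem two {μ κ : Ordinal.{u}} (hκ : ℵ₀ < κ.cof) {X A B : Set Ordinal.{u}} (hX : Pos μ κ X)
    (hA : ¬ Pos μ κ A) (h : ∀ b ∈ X, b ∈ A ∨ b ∈ B) : Pos μ κ B := by
  by_contra hB
  refine All.va μ κ hκ 2 ?_ (fun i => if i = 0 then A else B) ?_ ?_
  · have : (2 : Ordinal.{u}).card = 2 := by simp
    rw [this]
    exact (Cardinal.nat_lt_aleph0 2).trans hκ
  · intro i hi
    by_cases h0 : i = 0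
    · rw [if_pos h0]
      exact hA
    · rw [if_neg h0]
      exact hB
  · refine Pos.mono' hX fun b _ hb => ?_
    rcases h b hb with h | h
    · exact ⟨0, by norm_num, by rw [if_pos rfl]; exact h⟩
    · exact ⟨1, by norm_num, by rw [if_neg one_ne_zero]; exact h⟩

theorem pf_NIM : T_NIM.{u} := by
  intro L hL M hM hML A τ T h y F hy hF hf
  have hc : ℵ₀ < (succ L).ord.cof := cof_succ_lt hL
  have hl : IsSuccLimit (succ L).ord :=
    Cardinal.isSuccLimit_ord (hL.le.trans (le_succ L))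
  have hMc : M < (succ L).ord.cof := by
    rw [cof_succ hL]
    exact hML.trans (lt_succ L)
  have h0 : 0 < τ := by
    rcases eq_or_ne τ 0 with e | e
    · exfalso
      refine h.cov (Pos.mono' (All.vc M _ hM hMc) fun b _ _ => ?_)
      intro i hi
      rw [e] at hi
      exact absurd hi (not_lt.2 bot_le)
    · exact pos_iff_ne_zero.2 e
  obtain ⟨z, hz⟩ := h.fn 0 h0 y F hy hF hf
  have hp : Pos M.ord (succ L).ord {b | ZFSet.pair b.toZFSet z ∈ F} := by
    refine two hc (h.pos 0 h0) hz fun b hb => ?_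
    by_cases hq : ZFSet.pair b.toZFSet z ∈ F
    · exact Or.inr hq
    · exact Or.inl ⟨hb, hq⟩
  have hpos : (0 : Ordinal.{u}) < (succ L).ord := hl.bot_lt
  obtain ⟨a, ha, -, ha', -⟩ := hp _ (clb_gt hl hpos)
  obtain ⟨b, hb, hab, hb', -⟩ := hp _ (clb_gt hl ha)
  exact ⟨a, b, z, hab, hb, ha', hb'⟩

end Pool.Agent.H97.SD.NIM
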