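import Pool.Agent.H97.SD.Targets

/-!
# Assembly of the final theorem of SD from the rows
-/

set_option autoImplicit false

open Finset

namespace Pool.Agent.H97.SD

/-- The variables of the blocks are among `n` variables. -/
theorem exists_emb (N a A n : ℕ) (h : N * (a * A) ≤ n) : Nonempty (BV N a A ↪ Fin n) := by
  rw [Function.Embedding.nonempty_iff_card_le]
  simpa [Fintype.card_prod] using h

theorem card_ren {V W : Type} [DecidableEq W] (ι : V ↪ W) (C : Clause V) :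
    (ren ι C).card ≤ C.card := Finset.card_image_le

theorem pf_FIN (hTRU : P_TRU) (hTRL : P_TRL) (hUNS : P_UNS) (hSIZ : P_SIZ) (hUPB : P_UPB)
    (hLOW : P_LOW) (hEXI : P_EXI) (hPL : P_PL) (hPU : P_PU) (hPK : P_PK) : P_FIN := by
  intro ε hε
  obtain ⟨A, hA⟩ : ∃ A : ℕ, A = max 2 ⌈8 / ε⌉₊ := ⟨_, rfl⟩
  have hA2 : 2 ≤ A := by rw [hA]; exact le_max_left _ _
  have hA8 : 8 ≤ ε * A := by
    have h1 : 8 / ε ≤ A := (Nat.le_ceil _).trans (by rw [hA]; exact_mod_cast le_max_right _ _)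
    rwa [div_le_iff₀ hε, mul_comm] at h1
  obtain ⟨k₀, hk₀⟩ := hEXI A (by omega)
  obtain ⟨K1, hK1, h1⟩ := hPL ε A hε hA2 hA8
  obtain ⟨K2, hK2, h2⟩ := hPU A hA2
  obtain ⟨K3, hK3, h3⟩ := hPK A k₀ hA2
  refine ⟨max K1 (max K2 K3), fun n w a ha hw hn => ?_⟩
  have le1 : K1 ≤ max K1 (max K2 K3) := le_max_left _ _
  have le2 : K2 ≤ max K1 (max K2 K3) := (le_max_left _ _).trans (le_max_right _ _)
  have le3 : K3 ≤ max K1 (max K2 K3) := (le_max_right _ _).trans (le_max_right _ _)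
  obtain ⟨N, hN⟩ : ∃ N : ℕ, N = n / (a * A) := ⟨_, rfl⟩
  obtain ⟨k, hk⟩ : ∃ k : ℕ, k = w / (a * A) := ⟨_, rfl⟩
  obtain ⟨hk0, hk1, hkN, hr1, hkw, hNn⟩ := h3 n w a ha ((Nat.mul_le_mul_right a le3).trans hw)
    ((Nat.mul_le_mul_right w le3).trans hn)
  rw [← hk] at hk0 hk1 hkN hr1 hkw
  rw [← hN] at hkN hNn
  obtain ⟨σ, hE1, hE2⟩ := hk₀ k N hk0 hkN
  have hN1 : 1 ≤ N := hk1.trans hkN
  obtain ⟨h, hh⟩ := hUNS N k σ hN1 hk1
  obtain ⟨ι⟩ := exists_emb N a A n hNn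
  obtain ⟨hw', hc', hu'⟩ := hSIZ N ((k + 1) * N) k a A σ h
  obtain ⟨hU1, hU2, hU3⟩ := h2 n w a ha ((Nat.mul_le_mul_right a le2).trans hw)
    ((Nat.mul_le_mul_right w le2).trans hn) N k hN hk
  have hne : Nonempty (BV N a A) :=
    ⟨(⟨0, hN1⟩, ⟨0, ha⟩, ⟨0, by omega⟩)⟩
  refine ⟨(FF a A σ h).image (ren ι), ?_, ?_, ?_, ?_, ?_⟩
  · intro C hC
    obtain ⟨C₀, hC₀, rfl⟩ := Finset.mem_image.1 hC
    exact ((card_ren ι C₀).trans (hw' C₀ hC₀)).trans hkw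
  · exact (Finset.card_image_le.trans hc').trans hU2
  · intro z
    obtain ⟨C, hC, hz⟩ := hu' hh (fun v => z (ι v))
    refine ⟨ren ι C, Finset.mem_image_of_mem _ hC, fun l hl => ?_⟩
    obtain ⟨l₀, hl₀, rfl⟩ := Finset.mem_image.1 hl
    exact hz l₀ hl₀
  · intro P D hP hD
    have hD' : K1 * a * D ≤ n * w :=
      (Nat.mul_le_mul_right D (Nat.mul_le_mul_right a le1)).trans hD
    obtain ⟨P₀, hP₀, hPc⟩ := hTRL (BV N a A) (Fin n) ι (FF a A σ h) P D hP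
    obtain ⟨hl1, hl2⟩ := h1 n w a ha ((Nat.mul_le_mul_right a le1).trans hw)
      ((Nat.mul_le_mul_right w le1).trans hn) N k (2 * A * N / k + 1) (k / (4 * A * A)) (n / A)
      P₀.card D hN hk rfl rfl rfl hD'
    have hAA : 2 ≤ a * A := by nlinarith
    have key := hLOW N ((k + 1) * N) k a A σ h (k / (4 * A * A)) (2 * A * N / k + 1) (N / A)
      (n / A) (k / (4 * A * A)) D P₀ hr1 (Nat.div_le_self _ _) (Nat.le_add_left 1 _)
      (by omega) hAA hN1 hE1 hE2 hl1 hP₀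
    refine (hl2 key).trans ?_
    exact_mod_cast hPc
  · obtain ⟨P, hP, hPc⟩ := hUPB N ((k + 1) * N) k a A σ h hk1 ha (by omega) hh
    refine ⟨P.image (ren ι), _, hTRU _ _ ι _ _ _ hP, hU1, le_trans ?_ hU3⟩
    have : (P.image (ren ι)).card ≤
        (1 + a * 2 ^ (A - 1)) ^ N * 2 ^ (k * a * A) * (k * a * A + 1) :=
      Finset.card_image_le.trans hPc
    exact_mod_cast this

end Pool.Agent.H97.SD
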