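import Mathlib

/-!
Definitions for the project SD (size and depth of resolution refutations) on `MP_c62aed_lc`.
-/

set_option autoImplicit false

open Finset

namespace Pool.Agent.H97.SD

/-! ## Resolution -/

/-- A clause over the variables `V`: a finite set of literals; the literal `(x, s)` is true when
the variable `x` has the value `s`. -/
abbrev Clause (V : Type) := Finset (V × Bool)

/-- All literals of the clause `C` are false at the assignment `z`. -/
def Falsified {V : Type} (C : Clause V) (z : V → Bool) : Prop := ∀ l ∈ C, z l.1 ≠ l.2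

/-- The clauses of `P` form a resolution refutation (dag-like, with weakening) of `F` of depth at
most `D`: the empty clause is in `P`, and each clause `C` of `P` contains a clause of `F` or
contains the resolvent (on a variable `x`) of two clauses of `P` of smaller depth. -/
def Refutes {V : Type} [DecidableEq V] (F P : Finset (Clause V)) (D : ℕ) : Prop :=
  ∅ ∈ P ∧ ∃ ρ : Clause V → ℕ, ρ ∅ ≤ D ∧ ∀ C ∈ P, (∃ A ∈ F, A ⊆ C) ∨
    ∃ x : V, ∃ C₀ ∈ P, ∃ C₁ ∈ P, ρ C₀ < ρ C ∧ ρ C₁ < ρ C ∧
      C₀ ⊆ insert (x, true) C ∧ C₁ ⊆ insert (x, false) C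

/-- The clause `C` with its variables renamed by `ι`. -/
def ren {V W : Type} [DecidableEq W] (ι : V ↪ W) (C : Clause V) : Clause W :=
  C.image (fun l => (ι l.1, l.2))

/-- A strategy in a refutation: `q C` is the variable resolved at `C`, and `nx C s` is the premise
all of whose literals are false when those of `C` are false and `q C` has the value `s`. -/
def Strat {V : Type} [DecidableEq V] (F P : Finset (Clause V)) (ρ : Clause V → ℕ)
    (q : Clause V → V) (nx : Clause V → Bool → Clause V) : Prop :=
  ∀ C ∈ P, (∃ A ∈ F, A ⊆ C) ∨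
    ∀ s : Bool, nx C s ∈ P ∧ ρ (nx C s) < ρ C ∧ nx C s ⊆ insert (q C, !s) C

/-- The path from `C` along the answers `β`. -/
def pth {V : Type} (nx : Clause V → Bool → Clause V) (C : Clause V) (β : ℕ → Bool) : ℕ → Clause V
  | 0 => C
  | s + 1 => nx (pth nx C β s) (β s)

/-! ## The formula -/

/-- The variables: `N` blocks, each of `a` groups of `b` bits. -/
abbrev BV (N a b : ℕ) := Fin N × Fin a × Fin b

/-- The number of true bits in the group `g` of the block `j`. -/
def par {N a b : ℕ} (z : BV N a b → Bool) (j : Fin N) (g : Fin a) : ℕ :=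
  (univ.filter (fun i : Fin b => z (j, g, i) = true)).card

/-- The blocks in which some group has odd parity. -/
def Y {N a b : ℕ} (z : BV N a b → Bool) : Finset (Fin N) :=
  univ.filter (fun j => ∃ g : Fin a, Odd (par z j g))

/-- All groups of all blocks have even parity. -/
def EvenA {N a b : ℕ} (z : BV N a b → Bool) : Prop := ∀ j g, Even (par z j g)

/-- The number of places of the constraint `c` which lie in `O`. -/
def wt {N M k : ℕ} (σ : Fin M → Fin k → Fin N) (c : Fin M) (O : Finset (Fin N)) : ℕ :=
  (univ.filter (fun i : Fin k => σ c i ∈ O)).card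

/-- The number of places of the constraint `c` which lie outside `X`. -/
def out {N M k : ℕ} (σ : Fin M → Fin k → Fin N) (c : Fin M) (X : Finset (Fin N)) : ℕ :=
  (univ.filter (fun i : Fin k => σ c i ∉ X)).card

/-- The clause which says that the assignment differs from `z` on the blocks of `c`. -/
def ax {N a b M k : ℕ} (σ : Fin M → Fin k → Fin N) (c : Fin M) (z : BV N a b → Bool) :
    Clause (BV N a b) :=
  (univ.filter (fun v : BV N a b => ∃ i, σ c i = v.1)).image (fun v => (v, !(z v)))

/-- The formula: for every constraint `c` the number of places of `c` in `Y z` is not `h c`. -/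
def FF {N M k : ℕ} (a b : ℕ) (σ : Fin M → Fin k → Fin N) (h : Fin M → ℕ) :
    Finset (Clause (BV N a b)) :=
  (univ.filter (fun u : Fin M × (BV N a b → Bool) => wt σ u.1 (Y u.2) = h u.1)).image
    (fun u => ax σ u.1 u.2)

/-! ## Closures -/

/-- The places of the constraints in `J`. -/
def VJ {N M k : ℕ} (σ : Fin M → Fin k → Fin N) (J : Finset (Fin M)) : Finset (Fin N) :=
  J.biUnion (fun c => univ.image (σ c))

/-- Every constraint which is not in `J` has at least `r` places outside `X` and `VJ σ J`. -/
def Closed {N M k : ℕ} (σ : Fin M → Fin k → Fin N) (r : ℕ) (X : Finset (Fin N))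
    (J : Finset (Fin M)) : Prop :=
  ∀ c, c ∉ J → r ≤ out σ c (X ∪ VJ σ J)

open Classical in
/-- The smallest closed set of constraints. -/
noncomputable def cl {N M k : ℕ} (σ : Fin M → Fin k → Fin N) (r : ℕ) (X : Finset (Fin N)) :
    Finset (Fin M) :=
  univ.filter (fun c => ∀ J, Closed σ r X J → c ∈ J)

/-- Any `p` constraints have together at least `N - e` places. -/
def E1 {N M k : ℕ} (σ : Fin M → Fin k → Fin N) (p e : ℕ) : Prop :=
  ∀ J : Finset (Fin M), J.card = p → N ≤ (VJ σ J).card + e

/-- No `X` with `X.card < J.card ≤ p` contains at least `r` places of each constraint in `J`. -/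
def E2 {N M k : ℕ} (σ : Fin M → Fin k → Fin N) (p r : ℕ) : Prop :=
  ∀ J : Finset (Fin M), J.card ≤ p → ∀ X : Finset (Fin N), X.card < J.card →
    ∃ c ∈ J, wt σ c X < r

/-! ## The game -/

/-- The blocks all but at most one bit of which occur in `C`. -/
def Hp {N a b : ℕ} (C : Clause (BV N a b)) : Finset (Fin N) :=
  univ.filter (fun j => (univ.filter (fun u : Fin a × Fin b => (j, u) ∉ C.image Prod.fst)).card ≤ 1)

/-- `x` is `α` outside the blocks of `O` and differs from `α` in exactly one bit in each block
of `O`. -/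
def OneFlip {N a b : ℕ} (α x : BV N a b → Bool) (O : Finset (Fin N)) : Prop :=
  (∀ v : BV N a b, v.1 ∉ O → x v = α v) ∧
    ∀ j ∈ O, ∃ u : Fin a × Fin b, x (j, u) ≠ α (j, u) ∧ ∀ u', u' ≠ u → x (j, u') = α (j, u')

/-- The blocks of `Hp` of the first clauses (up to the `i`-th) of a path. -/
def UB {N a b : ℕ} (nx : Clause (BV N a b) → Bool → Clause (BV N a b)) (C : Clause (BV N a b))
    (β : ℕ → Bool) (i : ℕ) : Finset (Fin N) :=
  (range (i + 1)).biUnion (fun s => Hp (pth nx C β s))

/-- All literals outside the blocks of `O` of the first clauses of a path are false at `α`. -/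
def Comp {N a b : ℕ} (α : BV N a b → Bool) (nx : Clause (BV N a b) → Bool → Clause (BV N a b))
    (C : Clause (BV N a b)) (β : ℕ → Bool) (i : ℕ) (O : Finset (Fin N)) : Prop :=
  ∀ s, s ≤ i → ∀ l ∈ pth nx C β s, l.1.1 ∉ O → α l.1 ≠ l.2

/-- The invariant of the game. -/
def Inv {N a b M k : ℕ} (σ : Fin M → Fin k → Fin N) (h : Fin M → ℕ) (r p : ℕ)
    (α x : BV N a b → Bool) (O B : Finset (Fin N)) (C : Clause (BV N a b)) : Prop :=
  Falsified C x ∧ OneFlip α x O ∧ Hp C ⊆ B ∧ (cl σ r (B ∪ O)).card < p ∧
    ∀ c ∈ cl σ r (B ∪ O), wt σ c O ≠ h c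

end Pool.Agent.H97.SD
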