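import Pool.Agent.H97.SD.Targets

/-!
# Greedy satisfaction by private places (FIX)
-/

set_option autoImplicit false

open Finset

namespace Pool.Agent.H97.SD

theorem wt_mono {N M k : ℕ} (σ : Fin M → Fin k → Fin N) (c : Fin M) {O O' : Finset (Fin N)}
    (h : O ⊆ O') : wt σ c O ≤ wt σ c O' := by
  unfold wt
  exact card_le_card (fun i hi => by
    rw [mem_filter] at hi ⊢
    exact ⟨hi.1, h hi.2⟩)

theorem wt_lt {N M k : ℕ} (σ : Fin M → Fin k → Fin N) (c : Fin M) {O O' : Finset (Fin N)}
    (h : O ⊆ O') (i : Fin k) (hi : σ c i ∈ O') (hi' : σ c i ∉ O) : wt σ c O < wt σ c O' := by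
  unfold wt
  refine card_lt_card ⟨fun i hi => ?_, fun hsub => ?_⟩
  · rw [mem_filter] at hi ⊢
    exact ⟨hi.1, h hi.2⟩
  · have h1 : i ∈ univ.filter (fun i : Fin k => σ c i ∈ O') := by
      rw [mem_filter]
      exact ⟨mem_univ _, hi⟩
    have h2 := hsub h1
    rw [mem_filter] at h2
    exact hi' h2.2

theorem pf_FIX : P_FIX := by
  classical
  intro N M k σ h O S z hinj hz
  let Q : Finset (Finset (Fin M)) :=
    S.powerset.filter (fun T => ∀ c ∈ T, h c < wt σ c (O ∪ T.image z))
  have hQ : Q.Nonempty := ⟨∅, by simp [Q]⟩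
  obtain ⟨T, hT, hmax⟩ := exists_max_image Q (fun T => T.card) hQ
  simp only [Q, mem_filter, mem_powerset] at hT hmax
  refine ⟨T, hT.1, fun c hc heq => ?_⟩
  by_cases hcT : c ∈ T
  · have := hT.2 c hcT
    omega
  · have h1 : T.card + 1 ≤ T.card := by
      have h2 := hmax (insert c T) ⟨insert_subset hc hT.1, fun c' hc' => ?_⟩
      · rwa [card_insert_of_notMem hcT] at h2
      · have hsub : O ∪ T.image z ⊆ O ∪ (insert c T).image z :=
          union_subset_union_right (image_subset_image (subset_insert _ _))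
        rcases mem_insert.1 hc' with rfl | hc''
        · obtain ⟨⟨i, hi⟩, hzO⟩ := hz c' hc
          rw [← heq]
          refine wt_lt σ c' hsub i ?_ ?_
          · rw [hi]
            exact mem_union_right _ (mem_image_of_mem _ (mem_insert_self _ _))
          · rw [hi, mem_union]
            rintro (h3 | h3)
            · exact hzO h3
            · obtain ⟨c₂, hc₂, h4⟩ := mem_image.1 h3
              have := hinj (hT.1 hc₂) hc h4
              rw [this] at hc₂
              exact hcT hc₂
        · exact lt_of_lt_of_le (hT.2 c' hc'') (wt_mono σ c' hsub)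
    omega

end Pool.Agent.H97.SD
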