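import Pool.Agent.H97.SD.Targets

/-!
# Subsets of the closure with few places outside (GEN)
-/

set_option autoImplicit false

open Finset

namespace Pool.Agent.H97.SD

theorem VJ_mono {N M k : ℕ} (σ : Fin M → Fin k → Fin N) {J J' : Finset (Fin M)} (h : J ⊆ J') :
    VJ σ J ⊆ VJ σ J' := biUnion_subset_biUnion_of_subset_left _ h

theorem out_anti {N M k : ℕ} (σ : Fin M → Fin k → Fin N) (c : Fin M) {X X' : Finset (Fin N)}
    (h : X ⊆ X') : out σ c X' ≤ out σ c X := by
  unfold out
  exact card_le_card (fun i hi => by
    rw [mem_filter] at hi ⊢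
    exact ⟨hi.1, fun h1 => hi.2 (h h1)⟩)

theorem pf_GEN (hCLO : P_CLO) : P_GEN := by
  classical
  intro N M k σ r q X hq
  have key : ∀ q, q ≤ (cl σ r X).card → ∃ J ⊆ cl σ r X, J.card = q ∧
      (VJ σ J \ X).card ≤ r * q := by
    intro q
    induction q with
    | zero =>
      intro _
      refine ⟨∅, empty_subset _, rfl, ?_⟩
      simp [VJ]
    | succ q ih =>
      intro hq
      obtain ⟨J, hJ, hJc, hJv⟩ := ih (by omega)
      have hnc : ¬ Closed σ r X J := by
        intro hcl
        have hsub : cl σ r X ⊆ J := by
          intro c hc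
          unfold cl at hc
          exact (mem_filter.1 hc).2 J hcl
        have := card_le_card hsub
        omega
      unfold Closed at hnc
      push Not at hnc
      obtain ⟨c, hcJ, hc⟩ := hnc
      have hccl : c ∈ cl σ r X := by
        by_contra h1
        have h2 := (hCLO N M k σ r).1 X c h1
        have h3 : out σ c (X ∪ VJ σ (cl σ r X)) ≤ out σ c (X ∪ VJ σ J) :=
          out_anti σ c (union_subset_union_right (VJ_mono σ hJ))
        omega
      refine ⟨insert c J, insert_subset hccl hJ, ?_, ?_⟩
      · rw [card_insert_of_notMem hcJ, hJc]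
      · have hsub : VJ σ (insert c J) \ X ⊆ (VJ σ J \ X) ∪
            (univ.filter (fun i : Fin k => σ c i ∉ X ∪ VJ σ J)).image (σ c) := by
          intro j hj
          rw [mem_sdiff] at hj
          obtain ⟨hj1, hj2⟩ := hj
          unfold VJ at hj1
          rw [biUnion_insert, mem_union] at hj1
          rcases hj1 with h1 | h1
          · obtain ⟨i, -, hi⟩ := mem_image.1 h1
            by_cases h2 : j ∈ VJ σ J
            · exact mem_union_left _ (mem_sdiff.2 ⟨h2, hj2⟩)
            · refine mem_union_right _ (mem_image.2 ⟨i, ?_, hi⟩)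
              rw [mem_filter, hi, mem_union]
              exact ⟨mem_univ _, fun h3 => h3.elim hj2 h2⟩
          · exact mem_union_left _ (mem_sdiff.2 ⟨h1, hj2⟩)
        have h1 := card_le_card hsub
        have h2 := card_union_le (VJ σ J \ X)
          ((univ.filter (fun i : Fin k => σ c i ∉ X ∪ VJ σ J)).image (σ c))
        have h3 : ((univ.filter (fun i : Fin k => σ c i ∉ X ∪ VJ σ J)).image (σ c)).card ≤
            out σ c (X ∪ VJ σ J) := card_image_le
        have h4 : r * (q + 1) = r * q + r := by ring
        omega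
  obtain ⟨J, -, h1, h2⟩ := key q hq
  exact ⟨J, h1, h2⟩

end Pool.Agent.H97.SD
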