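import Pool.Agent.H97.SD.Targets

/-!
# Indexed families (IDX)
-/

set_option autoImplicit false

open Finset

namespace Pool.Agent.H97.SD

theorem pf_IDX : P_IDX := by
  classical
  intro V _ I F P f rk D i₀ h0 hD hP hstep
  let ρ : Clause V → ℕ := fun C => if h : ∃ i, f i = C then
    Nat.find (show ∃ m, ∃ i, f i = C ∧ rk i = m from ⟨rk h.choose, h.choose, h.choose_spec, rfl⟩)
    else 0
  have hle : ∀ i, ρ (f i) ≤ rk i := by
    intro i
    have hi : ∃ i', f i' = f i := ⟨i, rfl⟩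
    simp only [ρ, dif_pos hi]
    exact Nat.find_min' _ ⟨i, rfl, rfl⟩
  have hex : ∀ C, C ∈ P → ∃ i, f i = C ∧ rk i = ρ C := by
    intro C hC
    have hi := (hP C).1 hC
    simp only [ρ, dif_pos hi]
    exact Nat.find_spec (show ∃ m, ∃ i, f i = C ∧ rk i = m from
      ⟨rk hi.choose, hi.choose, hi.choose_spec, rfl⟩)
  refine ⟨(hP _).2 ⟨i₀, h0⟩, ρ, ?_, ?_⟩
  · rw [← h0]
    exact (hle i₀).trans hD
  · intro C hC
    obtain ⟨i, rfl, hi⟩ := hex C hC
    rcases hstep i with h | ⟨x, i₁, i₂, h1, h2, h3, h4⟩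
    · exact Or.inl h
    · right
      refine ⟨x, f i₁, (hP _).2 ⟨i₁, rfl⟩, f i₂, (hP _).2 ⟨i₂, rfl⟩, ?_, ?_, h3, h4⟩
      · rw [← hi]
        exact lt_of_le_of_lt (hle i₁) h1
      · rw [← hi]
        exact lt_of_le_of_lt (hle i₂) h2

end Pool.Agent.H97.SD
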