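import Pool.Agent.H97.SD.Targets

/-!
# Refutations by decision trees (TREE)
-/

set_option autoImplicit false

open Finset

namespace Pool.Agent.H97.SD

section

variable {V : Type} [DecidableEq V] [Fintype V] {St : Type} {q : ℕ}

/-- The clause of a node. -/
def gcl (f : St → Clause V) (v : St → Fin q → V) (s : St) (z : V → Bool) (d : ℕ) : Clause V :=
  f s ∪ (univ.filter (fun e : Fin q => (e : ℕ) < d)).image (fun e => (v s e, !(z (v s e))))

theorem gcl_zero (f : St → Clause V) (v : St → Fin q → V) (s : St) (z : V → Bool) :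
    gcl f v s z 0 = f s := by
  unfold gcl
  simp

theorem gcl_full (f : St → Clause V) (v : St → Fin q → V) (s : St) (z : V → Bool) :
    gcl f v s z q = f s ∪ univ.image (fun e : Fin q => (v s e, !(z (v s e)))) := by
  unfold gcl
  congr 2
  ext e
  simp

theorem gcl_succ (f : St → Clause V) (v : St → Fin q → V) (s : St) (z : V → Bool) (d : ℕ)
    (hd : d < q) :
    gcl f v s z (d + 1) = insert (v s ⟨d, hd⟩, !(z (v s ⟨d, hd⟩))) (gcl f v s z d) := by
  unfold gcl
  ext l
  simp only [mem_union, mem_image, mem_filter, mem_univ, true_and, mem_insert]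
  constructor
  · rintro (h | ⟨e, he, rfl⟩)
    · exact Or.inr (Or.inl h)
    · rcases Nat.lt_succ_iff_lt_or_eq.1 he with h1 | h1
      · exact Or.inr (Or.inr ⟨e, h1, rfl⟩)
      · left
        have : e = ⟨d, hd⟩ := Fin.ext h1
        rw [this]
  · rintro (rfl | h | ⟨e, he, rfl⟩)
    · exact Or.inr ⟨⟨d, hd⟩, Nat.lt_succ_self d, rfl⟩
    · exact Or.inl h
    · exact Or.inr ⟨e, Nat.lt_succ_of_lt he, rfl⟩

theorem gcl_falsified (f : St → Clause V) (v : St → Fin q → V) (s : St) (z : V → Bool) (d : ℕ)
    (h : Falsified (f s) z) : Falsified (gcl f v s z d) z := by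
  intro l hl
  unfold gcl at hl
  rcases mem_union.1 hl with h1 | h1
  · exact h l h1
  · obtain ⟨e, -, rfl⟩ := mem_image.1 h1
    simp

/-- One query. -/
theorem gcl_step (f : St → Clause V) (v : St → Fin q → V) (s : St) (z : V → Bool) (d : ℕ)
    (hd : d < q) (hz : Falsified (f s) z) (b : Bool) :
    ∃ z' : V → Bool, Falsified (f s) z' ∧
      gcl f v s z' (d + 1) ⊆ insert (v s ⟨d, hd⟩, !b) (gcl f v s z d) := by
  by_cases hmem : (v s ⟨d, hd⟩, !(z (v s ⟨d, hd⟩))) ∈ gcl f v s z d
  · refine ⟨z, hz, ?_⟩
    rw [gcl_succ f v s z d hd, insert_eq_of_mem hmem]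
    exact subset_insert _ _
  · have hx : ∀ l ∈ gcl f v s z d, l.1 ≠ v s ⟨d, hd⟩ := by
      intro l hl hlx
      apply hmem
      have h1 := gcl_falsified f v s z d hz l hl
      have h2 : l = (v s ⟨d, hd⟩, !(z (v s ⟨d, hd⟩))) := by
        rw [← hlx]
        refine Prod.ext rfl ?_
        cases h3 : z l.1 <;> cases h4 : l.2 <;> simp_all
      rw [← h2]
      exact hl
    have hagree : ∀ l ∈ gcl f v s z d, Function.update z (v s ⟨d, hd⟩) b l.1 = z l.1 :=
      fun l hl => Function.update_of_ne (hx l hl) _ _
    refine ⟨Function.update z (v s ⟨d, hd⟩) b, ?_, ?_⟩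
    · intro l hl
      have hl' : l ∈ gcl f v s z d := by
        unfold gcl
        exact mem_union_left _ hl
      rw [hagree l hl']
      exact hz l hl
    · rw [gcl_succ f v s _ d hd]
      rw [Function.update_self]
      refine insert_subset_insert _ ?_
      intro l hl
      unfold gcl at hl
      rcases mem_union.1 hl with h1 | h1
      · unfold gcl
        exact mem_union_left _ h1
      · obtain ⟨e, he, rfl⟩ := mem_image.1 h1
        have hm : (v s e, !(z (v s e))) ∈ gcl f v s z d := by
          unfold gcl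
          exact mem_union_right _ (mem_image_of_mem _ he)
        have := hagree _ hm
        simp only at this
        rw [this]
        exact hm

end

theorem pf_TREE (hIDX : P_IDX) : P_TREE := by
  classical
  intro V _ _ F St _ f q N v R s₀ hq hs₀ hR hyp
  -- nodes
  let Node : Type := {u : St × (V → Bool) × Fin (q + 1) //
    Falsified (f u.1) u.2.1 ∧ ((u.2.2 : ℕ) = q → ∃ A ∈ F, A ⊆ gcl f v u.1 u.2.1 u.2.2)}
  let g : Node → Clause V := fun u => gcl f v u.1.1 u.1.2.1 u.1.2.2
  let rk : Node → ℕ := fun u => (N - R u.1.1) * q + (q - (u.1.2.2 : ℕ))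
  have hroot : Falsified (f s₀) (fun _ => false) := by
    rw [hs₀]
    intro l hl
    exact absurd hl (notMem_empty l)
  -- the children of a node
  have child : ∀ (s : St) (z : V → Bool) (d : ℕ) (hd : d < q), Falsified (f s) z → ∀ b : Bool,
      ∃ i : Node, rk i < (N - R s) * q + (q - d) ∧
        g i ⊆ insert (v s ⟨d, hd⟩, !b) (gcl f v s z d) := by
    intro s z d hd hz b
    obtain ⟨z', hz', hsub⟩ := gcl_step f v s z d hd hz b
    by_cases hlast : d + 1 = q
    · -- last query
      rcases hyp s z' hz' with ⟨A, hA, hAsub⟩ | ⟨s', hs', hsub'⟩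
      · rw [← gcl_full] at hAsub
        refine ⟨⟨(s, z', ⟨d + 1, by omega⟩), hz', fun _ => ⟨A, hA, ?_⟩⟩, ?_, ?_⟩
        · have : gcl f v s z' (d + 1) = gcl f v s z' q := by rw [hlast]
          show A ⊆ gcl f v s z' (d + 1)
          rw [this]
          exact hAsub
        · show (N - R s) * q + (q - (d + 1)) < (N - R s) * q + (q - d)
          omega
        · exact hsub
      · rw [← gcl_full] at hsub'
        have hz'' : Falsified (f s') z' := fun l hl =>
          gcl_falsified f v s z' q hz' l (hsub' hl)
        refine ⟨⟨(s', z', ⟨0, by omega⟩), hz'', fun h => ?_⟩, ?_, ?_⟩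
        · exfalso
          simp only at h
          omega
        · show (N - R s') * q + (q - 0) < (N - R s) * q + (q - d)
          have h1 : N - R s' + 1 ≤ N - R s := by
            have := hR s'
            omega
          have h2 : (N - R s' + 1) * q ≤ (N - R s) * q := Nat.mul_le_mul_right q h1
          have h3 : (N - R s' + 1) * q = (N - R s') * q + q := by ring
          omega
        · show gcl f v s' z' 0 ⊆ _
          rw [gcl_zero]
          refine hsub'.trans ?_
          have : gcl f v s z' q = gcl f v s z' (d + 1) := by rw [hlast]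
          rw [this]
          exact hsub
    · refine ⟨⟨(s, z', ⟨d + 1, by omega⟩), hz', fun h => ?_⟩, ?_, hsub⟩
      · exfalso
        simp only at h
        omega
      · show (N - R s) * q + (q - (d + 1)) < (N - R s) * q + (q - d)
        omega
  -- the set of clauses
  let P : Finset (Clause V) := (univ : Finset Node).image g
  refine ⟨P, ?_, ?_⟩
  · refine hIDX V Node F P g rk _ ⟨(s₀, fun _ => false, ⟨0, by omega⟩), hroot, fun h => ?_⟩
      ?_ ?_ ?_ ?_
    · exfalso
      simp only at h
      omega
    · show gcl f v s₀ _ 0 = ∅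
      rw [gcl_zero, hs₀]
    · show (N - R s₀) * q + (q - 0) ≤ (N + 1) * q
      have h1 : (N - R s₀) * q ≤ N * q := Nat.mul_le_mul_right q (Nat.sub_le _ _)
      have h2 : (N + 1) * q = N * q + q := by ring
      omega
    · intro C
      simp only [P, mem_image, mem_univ, true_and]
    · rintro ⟨⟨s, z, d, hd⟩, hz, hax⟩
      rcases Nat.lt_or_ge d q with h | h
      · right
        obtain ⟨i₁, h1, h1'⟩ := child s z d h hz false
        obtain ⟨i₂, h2, h2'⟩ := child s z d h hz true
        exact ⟨v s ⟨d, h⟩, i₁, i₂, h1, h2, h1', h2'⟩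
      · left
        have : d = q := by omega
        exact hax this
  · -- counting
    let G : St × (Fin q → Bool) × Fin (q + 1) → Clause V := fun u =>
      f u.1 ∪ (univ.filter (fun e : Fin q => (e : ℕ) < (u.2.2 : ℕ))).image
        (fun e => (v u.1 e, !(u.2.1 e)))
    have hsub : P ⊆ (univ : Finset (St × (Fin q → Bool) × Fin (q + 1))).image G := by
      intro C hC
      simp only [P, mem_image, mem_univ, true_and] at hC
      obtain ⟨u, rfl⟩ := hC
      exact mem_image.2 ⟨(u.1.1, fun e => u.1.2.1 (v u.1.1 e), u.1.2.2), mem_univ _, rfl⟩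
    calc P.card ≤ ((univ : Finset (St × (Fin q → Bool) × Fin (q + 1))).image G).card :=
          card_le_card hsub
      _ ≤ (univ : Finset (St × (Fin q → Bool) × Fin (q + 1))).card := card_image_le
      _ = Fintype.card St * 2 ^ q * (q + 1) := by
          rw [card_univ, Fintype.card_prod, Fintype.card_prod, Fintype.card_fun,
            Fintype.card_bool, Fintype.card_fin, Fintype.card_fin, mul_assoc]

end Pool.Agent.H97.SD
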