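import Pool.Agent.H97.SD.Targets

/-!
# Renaming the variables of a refutation (TRU)
-/

set_option autoImplicit false

open Finset

namespace Pool.Agent.H97.SD

theorem ren_injective {V W : Type} [DecidableEq W] (ι : V ↪ W) :
    Function.Injective (ren ι) := by
  refine Finset.image_injective ?_
  intro l l' h
  have h1 := congrArg Prod.fst h
  have h2 := congrArg Prod.snd h
  exact Prod.ext (ι.injective h1) h2

theorem ren_insert {V W : Type} [DecidableEq V] [DecidableEq W] (ι : V ↪ W) (l : V × Bool)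
    (C : Clause V) : ren ι (insert l C) = insert (ι l.1, l.2) (ren ι C) := by
  unfold ren
  rw [Finset.image_insert]

theorem ren_mono {V W : Type} [DecidableEq W] (ι : V ↪ W) {C C' : Clause V} (h : C ⊆ C') :
    ren ι C ⊆ ren ι C' := Finset.image_subset_image h

theorem pf_TRU : P_TRU := by
  classical
  intro V W _ _ ι F P D ⟨h0, ρ, hρ, hstep⟩
  let ρ' : Clause W → ℕ := fun C' => if h : ∃ C, ren ι C = C' then ρ h.choose else 0
  have hρ' : ∀ C, ρ' (ren ι C) = ρ C := by
    intro C
    have h : ∃ C₁, ren ι C₁ = ren ι C := ⟨C, rfl⟩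
    simp only [ρ', dif_pos h]
    rw [ren_injective ι h.choose_spec]
  have hr0 : ren ι (∅ : Clause V) = ∅ := rfl
  refine ⟨mem_image.2 ⟨∅, h0, hr0⟩, ρ', ?_, ?_⟩
  · rw [← hr0, hρ']
    exact hρ
  · intro C' hC'
    obtain ⟨C, hC, rfl⟩ := mem_image.1 hC'
    rcases hstep C hC with ⟨A, hA, hAC⟩ | ⟨x, C₀, hC₀, C₁, hC₁, h1, h2, h3, h4⟩
    · exact Or.inl ⟨ren ι A, mem_image_of_mem _ hA, ren_mono ι hAC⟩
    · right
      refine ⟨ι x, ren ι C₀, mem_image_of_mem _ hC₀, ren ι C₁, mem_image_of_mem _ hC₁, ?_, ?_,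
        ?_, ?_⟩
      · rw [hρ', hρ']
        exact h1
      · rw [hρ', hρ']
        exact h2
      · have := ren_mono ι h3
        rwa [ren_insert] at this
      · have := ren_mono ι h4
        rwa [ren_insert] at this

end Pool.Agent.H97.SD
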