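import Pool.Agent.H97.SD.Defs

/-!
Statements of the modules of the project SD on `MP_c62aed_lc`.
-/

set_option autoImplicit false

open Finset

namespace Pool.Agent.H97.SD

/-! ## Refutations in general -/

/-- [IDX] An indexed family of clauses with ranks gives a refutation. -/
def P_IDX : Prop :=
  ∀ (V : Type) [DecidableEq V] (I : Type) (F P : Finset (Clause V)) (f : I → Clause V)
    (rk : I → ℕ) (D : ℕ) (i₀ : I), f i₀ = ∅ → rk i₀ ≤ D → (∀ C, C ∈ P ↔ ∃ i, f i = C) →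
    (∀ i, (∃ A ∈ F, A ⊆ f i) ∨ ∃ (x : V) (i₁ i₂ : I), rk i₁ < rk i ∧ rk i₂ < rk i ∧
      f i₁ ⊆ insert (x, true) (f i) ∧ f i₂ ⊆ insert (x, false) (f i)) →
    Refutes F P D

/-- [STR] A refutation has a strategy. -/
def P_STR : Prop :=
  ∀ (V : Type) [DecidableEq V] [Nonempty V] (F P : Finset (Clause V)) (D : ℕ), Refutes F P D →
    ∃ (ρ : Clause V → ℕ) (q : Clause V → V) (nx : Clause V → Bool → Clause V),
      ρ ∅ ≤ D ∧ Strat F P ρ q nx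

/-- [TRU] Renaming the variables of a refutation. -/
def P_TRU : Prop :=
  ∀ (V W : Type) [DecidableEq V] [DecidableEq W] (ι : V ↪ W) (F P : Finset (Clause V)) (D : ℕ),
    Refutes F P D → Refutes (F.image (ren ι)) (P.image (ren ι)) D

/-- [TRL] A refutation of a renamed formula gives one of the formula (the variables outside the
image of `ι` get the value false). -/
def P_TRL : Prop :=
  ∀ (V W : Type) [DecidableEq V] [DecidableEq W] [Nonempty V] (ι : V ↪ W)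
    (F : Finset (Clause V)) (P : Finset (Clause W)) (D : ℕ), Refutes (F.image (ren ι)) P D →
    ∃ P₀ : Finset (Clause V), Refutes F P₀ D ∧ P₀.card ≤ P.card

/-- [TREE] Refutations by decision trees: from the state `s` (known: all literals of `f s` are
false) the variables `v s 0, v s 1, ..` are queried; at the end one has an axiom or the clause of
a state with a larger `R`. -/
def P_TREE : Prop :=
  ∀ (V : Type) [DecidableEq V] [Fintype V] (F : Finset (Clause V)) (St : Type) [Fintype St]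
    (f : St → Clause V) (q N : ℕ) (v : St → Fin q → V) (R : St → ℕ) (s₀ : St), 1 ≤ q →
    f s₀ = ∅ → (∀ s, R s ≤ N) →
    (∀ (s : St) (z : V → Bool), Falsified (f s) z →
      (∃ A ∈ F, A ⊆ f s ∪ univ.image (fun d : Fin q => (v s d, !(z (v s d))))) ∨
      ∃ s', R s < R s' ∧ f s' ⊆ f s ∪ univ.image (fun d : Fin q => (v s d, !(z (v s d))))) →
    ∃ P : Finset (Clause V), Refutes F P ((N + 1) * q) ∧
      P.card ≤ Fintype.card St * 2 ^ q * (q + 1)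

/-! ## The formula -/

/-- [PAT] The number of even and of odd patterns. -/
def P_PAT : Prop :=
  ∀ b : ℕ, 1 ≤ b →
    (univ.filter (fun π : Fin b → Bool =>
      Even (univ.filter (fun i => π i = true)).card)).card = 2 ^ (b - 1) ∧
    (univ.filter (fun π : Fin b → Bool =>
      Odd (univ.filter (fun i => π i = true)).card)).card = 2 ^ (b - 1)

/-- [UNS] For every `σ` with `(k + 1) * N` constraints there is an unsatisfiable choice of `h`. -/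
def P_UNS : Prop :=
  ∀ (N k : ℕ) (σ : Fin ((k + 1) * N) → Fin k → Fin N), 1 ≤ N → 1 ≤ k →
    ∃ h : Fin ((k + 1) * N) → ℕ, ∀ O : Finset (Fin N), ∃ c, wt σ c O = h c

/-- [SIZ] The formula: width, size, unsatisfiability. -/
def P_SIZ : Prop :=
  ∀ (N M k a b : ℕ) (σ : Fin M → Fin k → Fin N) (h : Fin M → ℕ),
    (∀ C ∈ FF a b σ h, C.card ≤ k * a * b) ∧ (FF a b σ h).card ≤ M * 2 ^ (k * a * b) ∧
    ((∀ O : Finset (Fin N), ∃ c, wt σ c O = h c) → ∀ z, ∃ C ∈ FF a b σ h, Falsified C z)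

/-- [UPB] The small refutation. -/
def P_UPB : Prop :=
  ∀ (N M k a b : ℕ) (σ : Fin M → Fin k → Fin N) (h : Fin M → ℕ), 1 ≤ k → 1 ≤ a → 1 ≤ b →
    (∀ O : Finset (Fin N), ∃ c, wt σ c O = h c) →
    ∃ P : Finset (Clause (BV N a b)), Refutes (FF a b σ h) P ((N + 1) * (k * a * b)) ∧
      P.card ≤ (1 + a * 2 ^ (b - 1)) ^ N * 2 ^ (k * a * b) * (k * a * b + 1)

/-! ## Closures -/

/-- [CLO] Properties of the closure. -/
def P_CLO : Prop :=
  ∀ (N M k : ℕ) (σ : Fin M → Fin k → Fin N) (r : ℕ),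
    (∀ X, Closed σ r X (cl σ r X)) ∧ (∀ X X', X ⊆ X' → cl σ r X ⊆ cl σ r X') ∧
    (∀ X Z, Z ⊆ VJ σ (cl σ r X) → cl σ r (X ∪ Z) = cl σ r X) ∧
    (r ≤ k → cl σ r ∅ = ∅)

/-- [GEN] Subsets of the closure with few places outside `X`. -/
def P_GEN : Prop :=
  ∀ (N M k : ℕ) (σ : Fin M → Fin k → Fin N) (r q : ℕ) (X : Finset (Fin N)),
    q ≤ (cl σ r X).card → ∃ J : Finset (Fin M), J.card = q ∧ (VJ σ J \ X).card ≤ r * q

/-- [HAL] Private places. -/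
def P_HAL : Prop :=
  ∀ (N M k : ℕ) (σ : Fin M → Fin k → Fin N) (p r : ℕ), 1 ≤ N → E2 σ p r →
    ∀ (S : Finset (Fin M)) (R : Finset (Fin N)), S.card ≤ p → (∀ c ∈ S, r ≤ out σ c R) →
      ∃ z : Fin M → Fin N, Set.InjOn z S ∧ ∀ c ∈ S, (∃ i, σ c i = z c) ∧ z c ∉ R

/-- [FIX] Greedy satisfaction of the constraints by private places. -/
def P_FIX : Prop :=
  ∀ (N M k : ℕ) (σ : Fin M → Fin k → Fin N) (h : Fin M → ℕ) (O : Finset (Fin N))
    (S : Finset (Fin M)) (z : Fin M → Fin N), Set.InjOn z S →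
    (∀ c ∈ S, (∃ i, σ c i = z c) ∧ z c ∉ O) →
    ∃ T ⊆ S, ∀ c ∈ S, wt σ c (O ∪ T.image z) ≠ h c

/-! ## The game -/

/-- [ONE] `Y` at a flipped assignment; a falsified axiom. -/
def P_ONE : Prop :=
  ∀ (N M k a b : ℕ) (σ : Fin M → Fin k → Fin N) (h : Fin M → ℕ),
    (∀ (α x : BV N a b → Bool) (O : Finset (Fin N)), EvenA α → OneFlip α x O → Y x = O) ∧
    (∀ (C : Clause (BV N a b)) (x : BV N a b → Bool), Falsified C x → (∃ A ∈ FF a b σ h, A ⊆ C) →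
      ∃ c, wt σ c (Y x) = h c ∧ ∀ i, σ c i ∈ Hp C)

/-- [FLP] Flipping one bit in each block of `Z`. -/
def P_FLP : Prop :=
  ∀ (N a b : ℕ) (C C' : Clause (BV N a b)) (l : BV N a b × Bool) (α x : BV N a b → Bool)
    (O Z : Finset (Fin N)), C' ⊆ insert l C → Falsified C' x → OneFlip α x O →
    Disjoint Z O → Disjoint Z (Hp C) →
    ∃ x' : BV N a b → Bool, OneFlip α x' (O ∪ Z) ∧ Falsified C' x'

/-- [STP] One step of the game. -/
def P_STP : Prop :=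
  ∀ (N M k a b : ℕ) (σ : Fin M → Fin k → Fin N) (h : Fin M → ℕ) (r p : ℕ)
    (P : Finset (Clause (BV N a b))) (ρ : Clause (BV N a b) → ℕ)
    (q : Clause (BV N a b) → BV N a b) (nx : Clause (BV N a b) → Bool → Clause (BV N a b))
    (α x : BV N a b → Bool) (O B : Finset (Fin N)) (C : Clause (BV N a b)),
    1 ≤ r → E2 σ p r → Strat (FF a b σ h) P ρ q nx → EvenA α → C ∈ P → Inv σ h r p α x O B C →
    nx C (x (q C)) ∈ P ∧ ρ (nx C (x (q C))) < ρ C ∧ Falsified (nx C (x (q C))) x ∧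
      (p ≤ (cl σ r (B ∪ Hp (nx C (x (q C))) ∪ O)).card ∨
        ∃ (x' : BV N a b → Bool) (O' : Finset (Fin N)), O ⊆ O' ∧
          O'.card + (cl σ r (B ∪ O)).card ≤
            O.card + (cl σ r (B ∪ Hp (nx C (x (q C))) ∪ O')).card ∧
          Inv σ h r p α x' O' (B ∪ Hp (nx C (x (q C)))) (nx C (x (q C))))

/-- [PHA] A phase of `L` steps. -/
def P_PHA : Prop :=
  ∀ (N M k a b : ℕ) (σ : Fin M → Fin k → Fin N) (h : Fin M → ℕ) (r p L : ℕ)
    (P : Finset (Clause (BV N a b))) (ρ : Clause (BV N a b) → ℕ)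
    (q : Clause (BV N a b) → BV N a b) (nx : Clause (BV N a b) → Bool → Clause (BV N a b))
    (α x : BV N a b → Bool) (O : Finset (Fin N)) (C : Clause (BV N a b)),
    1 ≤ r → E2 σ p r → Strat (FF a b σ h) P ρ q nx → EvenA α → C ∈ P →
    Inv σ h r p α x O (Hp C) C →
    (∃ (β : ℕ → Bool) (i : ℕ) (O' : Finset (Fin N)), i ≤ L ∧ O'.card ≤ O.card + p ∧
      Comp α nx C β i O' ∧ p ≤ (cl σ r (UB nx C β i ∪ O')).card) ∨
    ∃ (C' : Clause (BV N a b)) (x' : BV N a b → Bool) (O' : Finset (Fin N)), C' ∈ P ∧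
      ρ C' + L ≤ ρ C ∧ O'.card ≤ O.card + p ∧ Inv σ h r p α x' O' (Hp C') C'

/-- [GAM] The game: every even assignment leads to a short path with a large closure. -/
def P_GAM : Prop :=
  ∀ (N M k a b : ℕ) (σ : Fin M → Fin k → Fin N) (h : Fin M → ℕ) (r p L m D : ℕ)
    (P : Finset (Clause (BV N a b))) (ρ : Clause (BV N a b) → ℕ)
    (q : Clause (BV N a b) → BV N a b) (nx : Clause (BV N a b) → Bool → Clause (BV N a b))
    (α : BV N a b → Bool),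
    1 ≤ r → r ≤ k → 1 ≤ p → 2 ≤ a * b → E2 σ p r → Strat (FF a b σ h) P ρ q nx → ∅ ∈ P →
    ρ ∅ ≤ D → D < m * L → EvenA α →
    ∃ C ∈ P, ∃ (β : ℕ → Bool) (i : ℕ) (O : Finset (Fin N)), i ≤ L ∧ O.card ≤ m * p ∧
      Comp α nx C β i O ∧ p ≤ (cl σ r (UB nx C β i ∪ O)).card

/-- [CNT] Counting the even assignments. -/
def P_CNT : Prop :=
  ∀ (N a b L f g : ℕ) (P : Finset (Clause (BV N a b)))
    (nx : Clause (BV N a b) → Bool → Clause (BV N a b)), 1 ≤ b →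
    (∀ α : BV N a b → Bool, EvenA α →
      ∃ C ∈ P, ∃ (β : ℕ → Bool) (i : ℕ) (O : Finset (Fin N)), i ≤ L ∧ O.card ≤ f ∧
        Comp α nx C β i O ∧ N ≤ (UB nx C β i ∪ O).card + g) →
    2 ^ ((b - 1) * a * N) ≤ P.card * (2 ^ L * (L + 1)) * 2 ^ N * 2 ^ (a * b * (g + f))

/-- [LOW] The lower bound for the formula on blocks. -/
def P_LOW : Prop :=
  ∀ (N M k a b : ℕ) (σ : Fin M → Fin k → Fin N) (h : Fin M → ℕ) (r p e L m D : ℕ)
    (P : Finset (Clause (BV N a b))),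
    1 ≤ r → r ≤ k → 1 ≤ p → 1 ≤ b → 2 ≤ a * b → 1 ≤ N → E1 σ p e → E2 σ p r →
    D < m * L → Refutes (FF a b σ h) P D →
    2 ^ ((b - 1) * a * N) ≤
      P.card * (2 ^ L * (L + 1)) * 2 ^ N * 2 ^ (a * b * (e + r * p + m * p))

/-! ## Existence of `σ` -/

open Classical in
/-- [CE1] The number of `σ` without (E1). -/
def P_CE1 : Prop :=
  ∀ N M k p e : ℕ, p ≤ M →
    (univ.filter (fun σ : Fin M → Fin k → Fin N => ¬ E1 σ p e)).card ≤
      M.choose p * 2 ^ N * (N - e - 1) ^ (k * p) * N ^ (k * (M - p))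

open Classical in
/-- [CE2] The number of `σ` without (E2). -/
def P_CE2 : Prop :=
  ∀ N M k p r : ℕ, p ≤ M → p ≤ N → r ≤ k →
    (univ.filter (fun σ : Fin M → Fin k → Fin N => ¬ E2 σ p r)).card ≤
      ∑ s ∈ Icc 1 p, M.choose s * N.choose s * (2 ^ k * s ^ r * N ^ (k - r)) ^ s *
        N ^ (k * (M - s))

/-- [NE1] The numerical inequality for (E1). -/
def P_NE1 : Prop :=
  ∀ A : ℕ, 1 ≤ A → ∃ k₀ : ℕ, ∀ k N : ℕ, k₀ ≤ k → k ≤ N →
    2 * (((k + 1) * N).choose (2 * A * N / k + 1) * 2 ^ N *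
      (N - N / A - 1) ^ (k * (2 * A * N / k + 1)) *
        N ^ (k * ((k + 1) * N - (2 * A * N / k + 1)))) < N ^ (k * ((k + 1) * N))

/-- [NE2] The numerical inequality for (E2). -/
def P_NE2 : Prop :=
  ∀ A : ℕ, 1 ≤ A → ∃ k₀ : ℕ, ∀ k N : ℕ, k₀ ≤ k → k ≤ N →
    2 * ∑ s ∈ Icc 1 (2 * A * N / k + 1), ((k + 1) * N).choose s * N.choose s *
      (2 ^ k * s ^ (k / (4 * A * A)) * N ^ (k - k / (4 * A * A))) ^ s *
        N ^ (k * ((k + 1) * N - s)) < N ^ (k * ((k + 1) * N))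

/-- [EXI] Existence of `σ`. -/
def P_EXI : Prop :=
  ∀ A : ℕ, 1 ≤ A → ∃ k₀ : ℕ, ∀ k N : ℕ, k₀ ≤ k → k ≤ N →
    ∃ σ : Fin ((k + 1) * N) → Fin k → Fin N,
      E1 σ (2 * A * N / k + 1) (N / A) ∧ E2 σ (2 * A * N / k + 1) (k / (4 * A * A))

/-! ## Parameters -/

/-- [PL] The lower bound, numerically. -/
def P_PL : Prop :=
  ∀ (ε : ℝ) (A : ℕ), 0 < ε → 2 ≤ A → 8 ≤ ε * A → ∃ K : ℕ, 1 ≤ K ∧ ∀ n w a : ℕ, 1 ≤ a →
    K * a ≤ w → K * w ≤ n → ∀ N k p r l S D : ℕ, N = n / (a * A) → k = w / (a * A) →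
      p = 2 * A * N / k + 1 → r = k / (4 * A * A) → l = n / A → K * a * D ≤ n * w →
      D < r * l ∧ (2 ^ ((A - 1) * a * N) ≤
        S * (2 ^ l * (l + 1)) * 2 ^ N * 2 ^ (a * A * (N / A + r * p + r * p)) →
        (2 : ℝ) ^ ((1 - ε) * n) ≤ S)

/-- [PU] The upper bound, numerically. -/
def P_PU : Prop :=
  ∀ A : ℕ, 2 ≤ A → ∃ K : ℕ, 1 ≤ K ∧ ∀ n w a : ℕ, 1 ≤ a → K * a ≤ w → K * w ≤ n →
    ∀ N k : ℕ, N = n / (a * A) → k = w / (a * A) →
      a * ((N + 1) * (k * a * A)) ≤ n * w ∧ (k + 1) * N * 2 ^ (k * a * A) ≤ n * w * 2 ^ w ∧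
      (((1 + a * 2 ^ (A - 1)) ^ N * 2 ^ (k * a * A) * (k * a * A + 1) : ℕ) : ℝ) ≤
        (2 : ℝ) ^ ((n : ℝ) * (1 + Real.logb 2 a) / a + 2 * w)

/-- [PK] The conditions on `k` and `N`. -/
def P_PK : Prop :=
  ∀ A k₀ : ℕ, 2 ≤ A → ∃ K : ℕ, 1 ≤ K ∧ ∀ n w a : ℕ, 1 ≤ a → K * a ≤ w → K * w ≤ n →
    k₀ ≤ w / (a * A) ∧ 1 ≤ w / (a * A) ∧ w / (a * A) ≤ n / (a * A) ∧
      1 ≤ w / (a * A) / (4 * A * A) ∧ w / (a * A) * a * A ≤ w ∧ n / (a * A) * (a * A) ≤ n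

/-- [FIN] The final theorem. -/
def P_FIN : Prop :=
  ∀ ε : ℝ, 0 < ε → ∃ K : ℕ, ∀ n w a : ℕ, 1 ≤ a → K * a ≤ w → K * w ≤ n →
    ∃ F : Finset (Clause (Fin n)), (∀ C ∈ F, C.card ≤ w) ∧ F.card ≤ n * w * 2 ^ w ∧
      (∀ z, ∃ C ∈ F, Falsified C z) ∧
      (∀ (P : Finset (Clause (Fin n))) (D : ℕ), Refutes F P D → K * a * D ≤ n * w →
        (2 : ℝ) ^ ((1 - ε) * n) ≤ P.card) ∧
      ∃ (P : Finset (Clause (Fin n))) (D : ℕ), Refutes F P D ∧ a * D ≤ n * w ∧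
        (P.card : ℝ) ≤ (2 : ℝ) ^ ((n : ℝ) * (1 + Real.logb 2 a) / a + 2 * w)

end Pool.Agent.H97.SD
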