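import Pool.Agent.H97.SD.Targets

/-!
# An unsatisfiable choice of the weights (UNS)
-/

set_option autoImplicit false

open Finset

namespace Pool.Agent.H97.SD

theorem two_mul_pow_le (k : ℕ) (hk : 1 ≤ k) : 2 * k ^ k ≤ (k + 1) ^ k := by
  have hk0 : (0 : ℝ) < k := by exact_mod_cast hk
  have h1 := one_add_mul_le_pow (a := (1 : ℝ) / k) (by
    have : (0 : ℝ) ≤ 1 / k := by positivity
    linarith) k
  have h2 : (1 : ℝ) + k * (1 / k) = 2 := by
    field_simp
    norm_num
  rw [h2] at h1
  have h3 : (2 : ℝ) * (k : ℝ) ^ k ≤ ((k : ℝ) + 1) ^ k := by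
    have h4 : ((k : ℝ) + 1) ^ k = (1 + 1 / (k : ℝ)) ^ k * (k : ℝ) ^ k := by
      rw [← mul_pow]
      congr 1
      field_simp
    rw [h4]
    exact mul_le_mul_of_nonneg_right h1 (by positivity)
  exact_mod_cast h3

theorem pow_lt_aux (k N : ℕ) (hk : 1 ≤ k) (hN : 1 ≤ N) :
    2 ^ N * k ^ ((k + 1) * N) < (k + 1) ^ ((k + 1) * N) := by
  rw [pow_mul, pow_mul, ← mul_pow]
  refine Nat.pow_lt_pow_left ?_ (by omega)
  have h1 := two_mul_pow_le k hk
  have h2 : 0 < (k + 1) ^ k := by positivity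
  calc 2 * k ^ (k + 1) = k * (2 * k ^ k) := by ring
    _ ≤ k * (k + 1) ^ k := Nat.mul_le_mul_left k h1
    _ < (k + 1) * (k + 1) ^ k := Nat.mul_lt_mul_of_pos_right (Nat.lt_succ_self k) h2
    _ = (k + 1) ^ (k + 1) := by ring

theorem pf_UNS : P_UNS := by
  classical
  intro N k σ hN hk
  by_contra hcon
  push Not at hcon
  have hwt : ∀ (c : Fin ((k + 1) * N)) (O : Finset (Fin N)), wt σ c O < k + 1 := by
    intro c O
    have h1 : wt σ c O ≤ (univ : Finset (Fin k)).card := card_le_card (filter_subset _ _)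
    rw [card_univ, Fintype.card_fin] at h1
    omega
  let B : Finset (Fin N) → Finset (Fin ((k + 1) * N) → Fin (k + 1)) := fun O =>
    Fintype.piFinset (fun c => univ.erase (⟨wt σ c O, hwt c O⟩ : Fin (k + 1)))
  have hB : ∀ O, (B O).card = k ^ ((k + 1) * N) := by
    intro O
    simp only [B, Fintype.card_piFinset, card_erase_of_mem (mem_univ _), card_univ,
      Fintype.card_fin, Nat.add_sub_cancel, prod_const]
  have hcov : (univ : Finset (Fin ((k + 1) * N) → Fin (k + 1))) ⊆ univ.biUnion B := by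
    intro h _
    obtain ⟨O, hO⟩ := hcon (fun c => (h c : ℕ))
    refine mem_biUnion.2 ⟨O, mem_univ _, ?_⟩
    simp only [B, Fintype.mem_piFinset, mem_erase, mem_univ, and_true]
    intro c heq
    exact hO c (by rw [heq])
  have h1 := (card_le_card hcov).trans card_biUnion_le
  rw [card_univ, Fintype.card_fun, Fintype.card_fin, Fintype.card_fin, sum_congr rfl
    (fun O _ => hB O), sum_const, card_univ, Fintype.card_finset, Fintype.card_fin,
    smul_eq_mul] at h1
  have h2 := pow_lt_aux k N hk hN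
  omega

end Pool.Agent.H97.SD
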