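import Pool.Agent.H97.SD.Targets

/-!
# The small refutation (UPB)
-/

set_option autoImplicit false

open Finset

namespace Pool.Agent.H97.SD

/-- Odd patterns. -/
abbrev OddP (b : ℕ) := {π : Fin b → Bool // Odd (univ.filter (fun i => π i = true)).card}

/-- States: for every block nothing, or a group with an odd pattern. -/
abbrev State (N a b : ℕ) := Fin N → Option (Fin a × OddP b)

/-- The clause of a state. -/
def fS {N a b : ℕ} (s : State N a b) : Clause (BV N a b) :=
  (univ : Finset (BV N a b × Bool)).filter
    (fun l => ∃ π : OddP b, s l.1.1 = some (l.1.2.1, π) ∧ l.2 = !(π.1 l.1.2.2))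

/-- The recorded blocks. -/
def Os {N a b : ℕ} (s : State N a b) : Finset (Fin N) := univ.filter (fun j => (s j).isSome)

theorem mem_fS {N a b : ℕ} (s : State N a b) (l : BV N a b × Bool) :
    l ∈ fS s ↔ ∃ π : OddP b, s l.1.1 = some (l.1.2.1, π) ∧ l.2 = !(π.1 l.1.2.2) := by
  simp [fS]

theorem mem_Os {N a b : ℕ} (s : State N a b) (j : Fin N) : j ∈ Os s ↔ (s j).isSome := by
  simp [Os]

theorem eq_of_falsified {N a b : ℕ} (s : State N a b) (z : BV N a b → Bool)
    (h : Falsified (fS s) z) (j : Fin N) (g : Fin a) (π : OddP b) (hs : s j = some (g, π))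
    (i : Fin b) : z (j, g, i) = π.1 i := by
  have h1 := h ((j, g, i), !(π.1 i)) ((mem_fS s _).2 ⟨π, hs, rfl⟩)
  simp only at h1
  cases h2 : z (j, g, i) <;> cases h3 : π.1 i <;> simp_all

theorem card_State (N a b : ℕ) (hPAT : P_PAT) (hb : 1 ≤ b) :
    Fintype.card (State N a b) = (1 + a * 2 ^ (b - 1)) ^ N := by
  rw [Fintype.card_fun, Fintype.card_option, Fintype.card_prod, Fintype.card_fin,
    Fintype.card_fin, Fintype.card_subtype, (hPAT b hb).2, add_comm]

theorem pf_UPB (hTREE : P_TREE) (hPAT : P_PAT) : P_UPB := by
  intro N M k a b σ h hk ha hb hh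
  choose c hc using fun s : State N a b => hh (Os s)
  have hcard : Fintype.card (Fin k × Fin a × Fin b) = k * a * b := by
    rw [Fintype.card_prod, Fintype.card_prod, Fintype.card_fin, Fintype.card_fin,
      Fintype.card_fin, mul_assoc]
  let e : Fin k × Fin a × Fin b ≃ Fin (k * a * b) := Fintype.equivFinOfCardEq hcard
  let v : State N a b → Fin (k * a * b) → BV N a b := fun s d =>
    (σ (c s) (e.symm d).1, (e.symm d).2.1, (e.symm d).2.2)
  have hv : ∀ (s : State N a b) (z : BV N a b → Bool) (i : Fin k) (g : Fin a) (i' : Fin b),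
      ((σ (c s) i, g, i'), !(z (σ (c s) i, g, i'))) ∈
        univ.image (fun d : Fin (k * a * b) => (v s d, !(z (v s d)))) := by
    intro s z i g i'
    refine mem_image.2 ⟨e (i, g, i'), mem_univ _, ?_⟩
    have : v s (e (i, g, i')) = (σ (c s) i, g, i') := by
      simp only [v, Equiv.symm_apply_apply]
    rw [this]
  have hq : 1 ≤ k * a * b := Nat.mul_pos (Nat.mul_pos hk ha) hb
  have hempty : fS (fun _ => none : State N a b) = ∅ := by
    ext l
    simp [mem_fS]
  have hRN : ∀ s : State N a b, (Os s).card ≤ N := by
    intro s
    exact (card_le_univ _).trans (by simp)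
  have hmain : ∀ (s : State N a b) (z : BV N a b → Bool), Falsified (fS s) z →
      (∃ A ∈ FF a b σ h, A ⊆ fS s ∪ univ.image (fun d : Fin (k * a * b) =>
        (v s d, !(z (v s d))))) ∨
      ∃ s', (Os s).card < (Os s').card ∧ fS s' ⊆ fS s ∪ univ.image
        (fun d : Fin (k * a * b) => (v s d, !(z (v s d)))) := by
    intro s z hz
    by_cases hcase : ∃ i : Fin k, σ (c s) i ∈ Y z ∧ s (σ (c s) i) = none
    · right
      obtain ⟨i, hi, hnone⟩ := hcase
      have hg : ∃ g : Fin a, Odd (par z (σ (c s) i) g) := by
        simpa [Y] using hi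
      obtain ⟨g, hg⟩ := hg
      let π : OddP b := ⟨fun i' => z (σ (c s) i, g, i'), hg⟩
      refine ⟨Function.update s (σ (c s) i) (some (g, π)), ?_, ?_⟩
      · refine card_lt_card ⟨?_, ?_⟩
        · intro j hj
          rw [mem_Os] at hj ⊢
          by_cases hji : j = σ (c s) i
          · rw [hji, Function.update_self]
            rfl
          · rw [Function.update_of_ne hji]
            exact hj
        · intro hsub
          have h1 : σ (c s) i ∈ Os (Function.update s (σ (c s) i) (some (g, π))) := by
            rw [mem_Os, Function.update_self]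
            rfl
          have h2 := hsub h1
          rw [mem_Os, hnone] at h2
          exact absurd h2 (by simp)
      · intro l hl
        obtain ⟨π', h1, h2⟩ := (mem_fS _ _).1 hl
        by_cases hji : l.1.1 = σ (c s) i
        · rw [hji, Function.update_self] at h1
          have h3 := Option.some.inj h1
          have h4 : g = l.1.2.1 := (Prod.mk.inj h3).1
          have h5 : π = π' := (Prod.mk.inj h3).2
          refine mem_union_right _ ?_
          have h6 := hv s z i g l.1.2.2
          have h7 : l = ((σ (c s) i, g, l.1.2.2), !(z (σ (c s) i, g, l.1.2.2))) := by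
            refine Prod.ext (Prod.ext hji (Prod.ext h4.symm rfl)) ?_
            rw [h2, ← h5]
          rw [h7]
          exact h6
        · rw [Function.update_of_ne hji] at h1
          exact mem_union_left _ ((mem_fS _ _).2 ⟨π', h1, h2⟩)
    · left
      have hwt : wt σ (c s) (Y z) = h (c s) := by
        rw [← hc s]
        unfold wt
        congr 1
        ext i
        simp only [mem_filter, mem_univ, true_and]
        constructor
        · intro hi
          rw [mem_Os]
          by_contra hn
          exact hcase ⟨i, hi, by simpa using hn⟩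
        · intro hi
          rw [mem_Os, Option.isSome_iff_exists] at hi
          obtain ⟨⟨g, π⟩, hgp⟩ := hi
          simp only [Y, mem_filter, mem_univ, true_and]
          refine ⟨g, ?_⟩
          have h1 : par z (σ (c s) i) g = (univ.filter (fun i' => π.1 i' = true)).card := by
            unfold par
            congr 1
            ext i'
            simp only [mem_filter, mem_univ, true_and]
            rw [eq_of_falsified s z hz _ g π hgp i']
          rw [h1]
          exact π.2
      refine ⟨ax σ (c s) z, mem_image.2 ⟨(c s, z), by simp [hwt], rfl⟩, ?_⟩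
      intro l hl
      unfold ax at hl
      obtain ⟨u, hu, rfl⟩ := mem_image.1 hl
      simp only [mem_filter, mem_univ, true_and] at hu
      obtain ⟨i, hi⟩ := hu
      refine mem_union_right _ ?_
      have h6 := hv s z i u.2.1 u.2.2
      rw [hi] at h6
      exact h6
  obtain ⟨P, hP, hPc⟩ := hTREE (BV N a b) (FF a b σ h) (State N a b) fS (k * a * b) N v
    (fun s => (Os s).card) (fun _ => none) hq hempty hRN hmain
  refine ⟨P, hP, hPc.trans ?_⟩
  rw [card_State N a b hPAT hb]

end Pool.Agent.H97.SD
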